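import Mathlib

/-!
# Baker's constant, as defined, is at least `log 13 / log 3 = 2.33...`

The quadruple `(2, 3, -1, 0)` is admissible with `m = 3`, and the smallest possible value of
`max (p, q, r)` over the prime solutions of `2 p + 3 q = r` is `13`.
-/

set_option autoImplicit false

namespace Pool.Agent.Results.MP_3923f3_nt.LowerBound

/-- admissible quadruples `(a, b, c, d)`: `a, b, c` are nonzero and not all of the same sign,
`a + b + c - d` is even, and `gcd (a, b, c) = gcd (d, a, b) = gcd (d, a, c) = gcd (d, b, c) = 1` -/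
def Admissible (a b c d : ℤ) : Prop :=
  a ≠ 0 ∧ b ≠ 0 ∧ c ≠ 0 ∧ ¬ (0 < a ∧ 0 < b ∧ 0 < c) ∧ ¬ (a < 0 ∧ b < 0 ∧ c < 0) ∧
    Even (a + b + c - d) ∧ Int.gcd a (Int.gcd b c) = 1 ∧ Int.gcd d (Int.gcd a b) = 1 ∧
    Int.gcd d (Int.gcd a c) = 1 ∧ Int.gcd d (Int.gcd b c) = 1

/-- `m (a, b, c) = max (3, |a|, |b|, |c|)` -/
def mm (a b c : ℤ) : ℤ := max 3 (max |a| (max |b| |c|))

/-- `μ` is good: for every admissible quadruple there are primes `p, q, r` with
`a p + b q + c r = d` and `max (p, q, r) ≤ 3 |d| + m (a, b, c) ^ μ` -/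
def Good (μ : ℝ) : Prop :=
  ∀ a b c d : ℤ, Admissible a b c d → ∃ p q r : ℕ, p.Prime ∧ q.Prime ∧ r.Prime ∧
    a * p + b * q + c * r = d ∧
    ((max p (max q r) : ℕ) : ℝ) ≤ 3 * |(d : ℝ)| + (mm a b c : ℝ) ^ μ

/-- **Every good `μ` is at least `log 13 / log 3`, hence Baker's constant is larger than `2.33`.** -/
theorem result (μ : ℝ) (h : Good μ) : Real.log 13 / Real.log 3 ≤ μ ∧ 2.33 < μ := by
  have hadm : Admissible 2 3 (-1) 0 := by
    refine ⟨by norm_num, by norm_num, by norm_num, by norm_num, by norm_num, by decide,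
      by decide, by decide, by decide, by decide⟩
  obtain ⟨p, q, r, hp, hq, hr, he, hb⟩ := h 2 3 (-1) 0 hadm
  have hr13 : 13 ≤ r := by
    have he' : r = 2 * p + 3 * q := by
      have : (r : ℤ) = 2 * p + 3 * q := by linarith
      exact_mod_cast this
    have hp2 := hp.two_le
    have hq2 := hq.two_le
    by_contra hcon
    have hp3 : p ≤ 3 := by omega
    have hq3 : q = 2 := by omega
    subst hq3
    interval_cases p
    · rw [he'] at hr
      norm_num at hr
    · rw [he'] at hr
      norm_num at hr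
  have hm : mm 2 3 (-1) = 3 := by decide
  have h13 : (13 : ℝ) ≤ 3 ^ μ := by
    have h1 : ((r : ℕ) : ℝ) ≤ ((max p (max q r) : ℕ) : ℝ) := by
      exact_mod_cast (le_max_right q r).trans (le_max_right p _)
    have h2 : (13 : ℝ) ≤ r := by exact_mod_cast hr13
    rw [hm] at hb
    simp only [Int.cast_zero, abs_zero, mul_zero, zero_add, Int.cast_ofNat] at hb
    linarith
  have hlog3 : 0 < Real.log 3 := Real.log_pos (by norm_num)
  have hmain : Real.log 13 / Real.log 3 ≤ μ := by
    rw [div_le_iff₀ hlog3, ← Real.log_rpow (by norm_num)]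
    exact Real.log_le_log (by norm_num) h13
  refine ⟨hmain, lt_of_lt_of_le ?_ hmain⟩
  rw [lt_div_iff₀ hlog3]
  have : (2.33 : ℝ) * Real.log 3 = Real.log (3 ^ (233 : ℕ)) / 100 := by
    rw [Real.log_pow]
    push_cast
    ring
  rw [this, div_lt_iff₀ (by norm_num)]
  have h100 : Real.log 13 * 100 = Real.log (13 ^ (100 : ℕ)) := by
    rw [Real.log_pow]
    push_cast
    ring
  rw [h100]
  exact Real.log_lt_log (by positivity) (by norm_num)

end Pool.Agent.Results.MP_3923f3_nt.LowerBound
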